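import Pool.Agent.V1194.TR.Bad

/-!
# The dichotomy for the extreme traces of `C*(ℤ² ⋉ ℤ[1/6])` is a local statement at the regular trace

Let `G` be the group generated by `x ↦ 2 x`, `x ↦ 3 x`, `x ↦ x + 1` on `ℚ`, a copy of
`ℤ² ⋉ ℤ[1/6]`, and `u` the translation by `1`.  The tracial states of `C*(G)` are the normalised
positive definite class functions on `G`.  `Bad G` is the set of the counterexamples to the question:
the extreme tracial states which are neither the regular trace nor conditionally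
finite-dimensional.

A bad trace vanishes off the translations and is determined by its values on the powers of `u`; the
maps `u ^ m ↦ u ^ (k m)` act on the bad traces, for `k` prime to `6` by surjections; the images of ONE
bad trace accumulate at the regular trace, and their values at `u` come arbitrarily close to zero
without vanishing. So there are no bad traces at all if there are none near the regular trace, or if
the nonzero values at `u` of the bad traces are bounded away from zero.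

The proof: the bad traces are the traces of the atomless jointly ergodic `×2, ×3`-invariant measures
different from Lebesgue measure (`Pool/Agent/V1194/TR`), and for these measures this is the theorem
`MP_96e181_an.LocalRigidity` (`Pool/Agent/V11299/FG`).
-/

set_option autoImplicit false

open MeasureTheory Filter Topology
open scoped ComplexOrder

namespace Pool.Agent.Results.MP_81910f_an.LocalTraces

open Pool.Agent.V1194.TR Pool.Agent.V11299.FG Pool.Agent.Y253.TR Pool.Agent.W763.Tr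
open Pool.Agent.TH654.FC

/-- **The dichotomy is a local statement at the regular trace.** -/
theorem result (s2 s3 t : Equiv.Perm ℚ) (h2 : ∀ x : ℚ, s2 x = 2 * x) (h3 : ∀ x : ℚ, s3 x = 3 * x)
    (ht : ∀ x : ℚ, t x = x + 1) (G : Subgroup (Equiv.Perm ℚ))
    (hG : G = Subgroup.closure {s2, s3, t}) (u : G) (hu : ∀ x : ℚ, (u : Equiv.Perm ℚ) x = x + 1) :
    (∀ φ ∈ Bad G, (∀ g : G, (¬ ∃ r : ℚ, ∀ x : ℚ, (g : Equiv.Perm ℚ) x = x + r) → φ g = 0) ∧
      (∀ ψ ∈ Bad G, (∀ m : ℤ, ψ (u ^ m) = φ (u ^ m)) → ψ = φ) ∧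
      ∀ k : ℕ, 1 ≤ k → (∃ ψ ∈ Bad G, ∀ m : ℤ, ψ (u ^ m) = φ (u ^ (k * m))) ∧
        (Nat.Coprime k 6 → ∃ ψ ∈ Bad G, ∀ m : ℤ, ψ (u ^ (k * m)) = φ (u ^ m))) ∧
    (∀ φ ∈ Bad G,
      Set.indicator ({1} : Set G) (fun _ => (1 : ℂ)) ∈
        closure {ψ : G → ℂ | ψ ∈ Bad G ∧ ∃ k : ℕ, 1 ≤ k ∧ ∀ m : ℤ, ψ (u ^ m) = φ (u ^ (k * m))} ∧
      ∀ δ : ℝ, 0 < δ → ∃ k : ℕ, 1 ≤ k ∧ 0 < ‖φ (u ^ k)‖ ∧ ‖φ (u ^ k)‖ < δ) ∧
    List.TFAE [
      Bad G = ∅,
      (Bad G).Finite,
      {r : ℝ | ∃ φ ∈ Bad G, r = ‖φ u‖}.Finite,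
      IsClosed (Bad G),
      ∃ δ : ℝ, 0 < δ ∧ ∀ φ ∈ Bad G, φ u = 0 ∨ δ ≤ ‖φ u‖,
      ∃ (N : ℕ) (ε : ℝ), 0 < ε ∧ ∀ φ ∈ Bad G, ∃ m : ℕ, 1 ≤ m ∧ m ≤ N ∧ ε ≤ ‖φ (u ^ m)‖,
      Set.indicator ({1} : Set G) (fun _ => (1 : ℂ)) ∉ closure (Bad G)] := by
  have hform : ∀ g : G, ∃ (a b : ℤ) (r : ℚ), Six r ∧
      ∀ x, (g : Equiv.Perm ℚ) x = 2 ^ a * 3 ^ b * x + r := fun g =>
    form h2 h3 ht g (by rw [← hG]; exact g.2)
  have hoff : ∀ (μ : Measure UnitAddCircle) (g : G),
      (¬ ∃ r : ℚ, ∀ x : ℚ, (g : Equiv.Perm ℚ) x = x + r) → (tr μ : G → ℂ) g = 0 := by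
    intro μ g hg
    unfold tr
    rw [if_neg]
    intro h1
    apply hg
    refine ⟨(g : Equiv.Perm ℚ) 0, fun x => ?_⟩
    rw [aff hform g x, h1, one_mul]
  -- images
  have himg : ∀ φ ∈ Bad G, ∀ k : ℕ, 1 ≤ k → ∃ ψ ∈ Bad G, ∀ m : ℤ, ψ (u ^ m) = φ (u ^ (k * m)) := by
    intro φ hφ k hk
    obtain ⟨μ, hμ, -, hval⟩ := bad_measure h2 h3 ht hG hu hφ
    have hm := hμ.map le_rfl (by norm_num) hk
    obtain ⟨hb, hbv⟩ := bad_of_measure h2 h3 ht hG hu hm
    refine ⟨_, hb, fun m => ?_⟩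
    rw [hbv, hval]
    exact fc_map μ k m
  have hnear : ∀ φ ∈ Bad G, ∀ (N : ℕ) (ε : ℝ), 0 < ε → ∃ k : ℕ, 1 ≤ k ∧
      ∀ m : ℕ, 1 ≤ m → m ≤ N → ‖φ (u ^ ((k : ℤ) * m))‖ < ε := by
    intro φ hφ N ε hε
    obtain ⟨μ, hμ, -, hval⟩ := bad_measure h2 h3 ht hG hu hφ
    have := hμ.prob
    obtain ⟨k, hk, h⟩ := near hμ.atomless N hε
    refine ⟨k, hk, fun m hm1 hm2 => ?_⟩
    have h5 := h m hm1 hm2
    rw [fc_map] at h5
    rw [hval]
    exact h5
  have hsmall : ∀ φ ∈ Bad G, ∀ δ : ℝ, 0 < δ → ∃ k : ℕ, 1 ≤ k ∧ 0 < ‖φ (u ^ k)‖ ∧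
      ‖φ (u ^ k)‖ < δ := by
    intro φ hφ δ hδ
    obtain ⟨μ, hμ, -, hval⟩ := bad_measure h2 h3 ht hG hu hφ
    have := hμ.prob
    obtain ⟨k, hk, h5, h6⟩ := gap hμ.atomless (hμ.sing le_rfl (by norm_num)) hδ
    rw [fc_map, mul_one] at h5 h6
    have e : φ (u ^ k) = Pool.Agent.Y139.GR.fc μ k := by
      rw [← zpow_natCast, hval]; rfl
    refine ⟨k, hk, ?_, ?_⟩
    · rw [e]; exact norm_pos_iff.2 h5
    · rw [e]; exact h6
  have hclos : ∀ φ ∈ Bad G, Set.indicator ({1} : Set G) (fun _ => (1 : ℂ)) ∈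
        closure {ψ : G → ℂ | ψ ∈ Bad G ∧ ∃ k : ℕ, 1 ≤ k ∧ ∀ m : ℤ, ψ (u ^ m) = φ (u ^ (k * m))} := by
    intro φ hφ
    choose! k hk hkN using fun n : ℕ => hnear φ hφ n (1 / ((n : ℝ) + 1)) (by positivity)
    choose ψ hψ hψk using fun n : ℕ => himg φ hφ (k n) (hk n)
    have hlim : Tendsto ψ atTop (𝓝 (Set.indicator ({1} : Set G) (fun _ => (1 : ℂ)))) := by
      rw [tendsto_pi_nhds]
      intro g
      by_cases hg : ∃ r : ℚ, ∀ x : ℚ, (g : Equiv.Perm ℚ) x = x + r
      · obtain ⟨r, hr⟩ := hg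
        by_cases hg1 : g = 1
        · rw [hg1, Set.indicator_of_mem (Set.mem_singleton _)]
          refine tendsto_const_nhds.congr fun n => ?_
          exact (hψ n).1.1.1.symm
        · rw [Set.indicator_of_notMem (by simpa using hg1)]
          -- the value at a translation
          have hval : ∃ m : ℤ, m ≠ 0 ∧ ∀ n, ψ n g = ψ n (u ^ m) := by
            obtain ⟨a, b, r', ⟨m, e, hr'⟩, hx⟩ := hform g
            have hr2 : r = m / 6 ^ e := by
              have := hx 0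
              rw [hr] at this
              simp only [mul_zero, zero_add] at this
              rw [this, hr']
            refine ⟨m, ?_, fun n => ?_⟩
            · intro hm
              apply hg1
              apply Subtype.ext
              apply Equiv.ext
              intro x
              rw [hr, hr2, hm]
              simp
            · obtain ⟨μ, hμ, hφμ, hval⟩ := bad_measure h2 h3 ht hG hu (hψ n)
              have := hμ.prob
              rw [hval, hφμ]
              exact tr_trans hμ.inv_p hμ.inv_q fun x => by rw [hr, hr2]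
          obtain ⟨m, hm0, hm⟩ := hval
          have hneg : ∀ n, ‖ψ n (u ^ m)‖ = ‖ψ n (u ^ ((m.natAbs : ℕ) : ℤ))‖ := by
            intro n
            obtain ⟨μ, hμ, hφμ, hval⟩ := bad_measure h2 h3 ht hG hu (hψ n)
            rw [hval, hval]
            exact (norm_fc_natAbs μ m).symm
          have hb : ∀ n : ℕ, m.natAbs ≤ n → ‖ψ n g‖ ≤ 1 / ((n : ℝ) + 1) := by
            intro n hn
            rw [hm, hneg, hψk]
            exact (hkN n m.natAbs (Int.natAbs_pos.2 hm0) hn).le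
          refine squeeze_zero_norm' (a := fun n : ℕ => 1 / ((n : ℝ) + 1)) ?_
            tendsto_one_div_add_atTop_nhds_zero_nat
          filter_upwards [eventually_ge_atTop m.natAbs] with n hn
          exact hb n hn
      · have hg1 : g ≠ 1 := by
          intro h1
          apply hg
          exact ⟨0, fun x => by rw [h1]; simp⟩
        rw [Set.indicator_of_notMem (by simpa using hg1)]
        refine tendsto_const_nhds.congr fun n => ?_
        obtain ⟨μ, hμ, hφμ, -⟩ := bad_measure h2 h3 ht hG hu (hψ n)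
        rw [hφμ]
        exact (hoff μ g hg).symm
    exact mem_closure_of_tendsto hlim (Eventually.of_forall fun n => ⟨hψ n, k n, hk n, hψk n⟩)
  refine ⟨fun φ hφ => ⟨?_, ?_, fun k hk => ⟨himg φ hφ k hk, fun hc => ?_⟩⟩,
    fun φ hφ => ⟨hclos φ hφ, hsmall φ hφ⟩, ?_⟩
  · obtain ⟨μ, hμ, hφμ, -⟩ := bad_measure h2 h3 ht hG hu hφ
    rw [hφμ]
    exact hoff μ
  · intro ψ hψ hall
    obtain ⟨μ, hμ, hφμ, hv⟩ := bad_measure h2 h3 ht hG hu hφ
    obtain ⟨ν, hν, hψν, hw⟩ := bad_measure h2 h3 ht hG hu hψ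
    have := hμ.prob
    have := hν.prob
    have : ν = μ := Pool.Agent.W764.FB.ext_fourier fun n => by rw [← hw, ← hv, hall]
    rw [hψν, hφμ, this]
  · obtain ⟨μ, hμ, hφμ, hv⟩ := bad_measure h2 h3 ht hG hu hφ
    obtain ⟨ν, hν, hmap⟩ := hμ.lift hk (Nat.Coprime.coprime_mul_right_right
      (show Nat.Coprime k (2 * 3) from hc)) (Nat.Coprime.coprime_mul_left_right
      (show Nat.Coprime k (2 * 3) from hc))
    obtain ⟨hb, hbv⟩ := bad_of_measure h2 h3 ht hG hu hν
    refine ⟨_, hb, fun m => ?_⟩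
    rw [hbv, hv, ← hmap]
    exact (fc_map ν k m).symm
  · have hΔ : Set.indicator ({1} : Set G) (fun _ => (1 : ℂ)) ∉ Bad G := fun h => h.2.1 rfl
    tfae_have 1 → 2 := fun h => by rw [h]; exact Set.finite_empty
    tfae_have 2 → 3 := by
      intro h
      refine (h.image fun φ => ‖φ u‖).subset ?_
      rintro r ⟨φ, hφ, rfl⟩
      exact ⟨φ, hφ, rfl⟩
    tfae_have 3 → 5 := by
      intro h
      classical
      set V : Finset ℝ := h.toFinset.filter fun r => 0 < r with hV
      obtain ⟨δ, hδ, hδV⟩ : ∃ δ : ℝ, 0 < δ ∧ ∀ r ∈ V, δ ≤ r := by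
        rcases V.eq_empty_or_nonempty with hE | hne
        · exact ⟨1, one_pos, fun z hz => by rw [hE] at hz; simp at hz⟩
        · obtain ⟨z0, hz0, hmin⟩ := V.exists_min_image id hne
          exact ⟨z0, (Finset.mem_filter.1 hz0).2, hmin⟩
      refine ⟨δ, hδ, fun φ hφ => ?_⟩
      by_cases h0 : φ u = 0
      · exact Or.inl h0
      · right
        apply hδV
        rw [hV, Finset.mem_filter, Set.Finite.mem_toFinset]
        exact ⟨⟨φ, hφ, rfl⟩, norm_pos_iff.2 h0⟩
    tfae_have 5 → 1 := by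
      rintro ⟨δ, hδ, h⟩
      rw [Set.eq_empty_iff_forall_notMem]
      intro φ hφ
      obtain ⟨k, hk, h5, h6⟩ := hsmall φ hφ δ hδ
      obtain ⟨ψ, hψ, hψk⟩ := himg φ hφ k hk
      have e : ψ u = φ (u ^ k) := by
        have := hψk 1
        rw [zpow_one, mul_one, zpow_natCast] at this
        exact this
      rcases h ψ hψ with h7 | h7
      · rw [e] at h7
        rw [h7, norm_zero] at h5
        exact lt_irrefl _ h5
      · rw [e] at h7
        exact absurd h6 (not_lt.2 h7)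
    tfae_have 1 → 4 := fun h => by rw [h]; exact isClosed_empty
    tfae_have 4 → 7 := by
      intro h
      rw [h.closure_eq]
      exact hΔ
    tfae_have 7 → 1 := by
      intro h
      rw [Set.eq_empty_iff_forall_notMem]
      intro φ hφ
      exact h (closure_mono (fun ψ hψ => hψ.1) (hclos φ hφ))
    tfae_have 1 → 6 := by
      intro h
      refine ⟨0, 1, one_pos, fun φ hφ => ?_⟩
      rw [h] at hφ
      exact absurd hφ (Set.notMem_empty _)
    tfae_have 6 → 1 := by
      rintro ⟨N, ε, hε, h⟩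
      rw [Set.eq_empty_iff_forall_notMem]
      intro φ hφ
      obtain ⟨k, hk, h5⟩ := hnear φ hφ N ε hε
      obtain ⟨ψ, hψ, hψk⟩ := himg φ hφ k hk
      obtain ⟨m, hm1, hm2, hm⟩ := h ψ hψ
      have e : ψ (u ^ m) = φ (u ^ ((k : ℤ) * m)) := by
        have := hψk m
        rw [zpow_natCast] at this
        exact this
      rw [e] at hm
      exact absurd (h5 m hm1 hm2) (not_lt.2 hm)
    tfae_finish

end Pool.Agent.Results.MP_81910f_an.LocalTraces
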