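import Pool.Agent.V1194.TR.Bad
import Pool.Agent.V11299.FG.Supp
import Pool.Agent.V11299.FG.Trans2

/-!
# Galois symmetry of the support of the bad extreme traces of `C*(ℤ² ⋉ ℤ[1/6])`

Let `G` be the group generated by `x ↦ 2 x`, `x ↦ 3 x`, `x ↦ x + 1` on `ℚ`, a copy of
`ℤ² ⋉ ℤ[1/6]`, and `u` the translation by `1`.  The tracial states of `C*(G)` are the normalised
positive definite class functions on `G`.  `Bad G` is the set of the counterexamples to the question: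
the extreme tracial states which are neither the regular trace nor conditionally
finite-dimensional.  A trace satisfies `φ (u ^ (2 m)) = φ (u ^ (3 m)) = φ (u ^ m)`, so the set of the
`m` with `φ (u ^ m) ≠ 0` is invariant under multiplication by `2` and `3`.  For a bad trace its
closure in the product of the rings of `l`-adic integers, `l ≥ 5`, is invariant under ALL units.

The proof: the bad traces are the traces of the atomless jointly ergodic `×2, ×3`-invariant measures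
different from Lebesgue measure (`Pool/Agent/V1194/TR`), and the theorems of `Pool/Agent/V11299/FG`
apply to these.
-/

set_option autoImplicit false

open MeasureTheory Filter Topology
open scoped ComplexOrder

namespace Pool.Agent.Results.MP_81910f_an.SupportSymmetry

open Pool.Agent.V1194.TR Pool.Agent.V11299.FG Pool.Agent.Y253.TR Pool.Agent.W763.Tr
open Pool.Agent.TH654.FC

/-- **Galois symmetry of the support of a bad trace.** Let `φ` be an extreme tracial state which is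
neither regular nor conditionally finite-dimensional. (1) If `φ (u ^ n) ≠ 0`, `n ≠ 0`, then for all
`k` prime to `6` and all `r` with `gcd (r, k) = gcd (n, k)` there are infinitely many `m ≡ r mod k`
with `φ (u ^ m) ≠ 0`. (2) For every prime `l ≥ 5`, either `φ (u ^ m) = 0` for all `m` prime to `l`, or
for all `j` every residue class `r mod l ^ j` with `r` prime to `l` contains infinitely many `m` with
`φ (u ^ m) ≠ 0`; the first alternative holds only for finitely many primes `l`. (3) There is `n ≥ 1`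
such that for all `k` prime to `6 n` every reduced residue class mod `k` contains infinitely many `m`
with `φ (u ^ m) ≠ 0`. (4) For every `k ≥ 2` prime to `6` there is `n₀` such that for all `n ≥ n₀` and
all `j` every residue class `r mod k ^ j`, reduced or not, contains infinitely many `m` with
`φ (u ^ (k ^ n m)) ≠ 0`. -/
theorem result (s2 s3 t : Equiv.Perm ℚ) (h2 : ∀ x : ℚ, s2 x = 2 * x) (h3 : ∀ x : ℚ, s3 x = 3 * x)
    (ht : ∀ x : ℚ, t x = x + 1) (G : Subgroup (Equiv.Perm ℚ))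
    (hG : G = Subgroup.closure {s2, s3, t}) (u : G) (hu : ∀ x : ℚ, (u : Equiv.Perm ℚ) x = x + 1)
    (φ : G → ℂ) (hφ : φ ∈ Bad G) :
    (∀ k : ℕ, 1 ≤ k → Nat.Coprime k 6 → ∀ n r : ℤ, n ≠ 0 → φ (u ^ n) ≠ 0 →
      Int.gcd r k = Int.gcd n k → {m : ℤ | m ≡ r [ZMOD k] ∧ φ (u ^ m) ≠ 0}.Infinite) ∧
    (∀ l : ℕ, l.Prime → 5 ≤ l → (∀ m : ℤ, ¬ (l : ℤ) ∣ m → φ (u ^ m) = 0) ∨
      ∀ (j : ℕ) (r : ℤ), ¬ (l : ℤ) ∣ r →
        {m : ℤ | m ≡ r [ZMOD ((l ^ j : ℕ) : ℤ)] ∧ φ (u ^ m) ≠ 0}.Infinite) ∧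
    {l : ℕ | l.Prime ∧ 5 ≤ l ∧ ∀ m : ℤ, ¬ (l : ℤ) ∣ m → φ (u ^ m) = 0}.Finite ∧
    (∃ n : ℕ, 1 ≤ n ∧ ∀ k : ℕ, 1 ≤ k → Nat.Coprime k (6 * n) → ∀ r : ℤ, Int.gcd r k = 1 →
      {m : ℤ | m ≡ r [ZMOD k] ∧ φ (u ^ m) ≠ 0}.Infinite) ∧
    (∀ k : ℕ, 2 ≤ k → Nat.Coprime k 6 → ∃ n₀ : ℕ, ∀ n : ℕ, n₀ ≤ n → ∀ (j : ℕ) (r : ℤ),
      {m : ℤ | m ≡ r [ZMOD ((k ^ j : ℕ) : ℤ)] ∧
        φ (u ^ (((k ^ n : ℕ) : ℤ) * m)) ≠ 0}.Infinite) := by
  obtain ⟨μ, hμ, -, hval⟩ := bad_measure h2 h3 ht hG hu hφ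
  have hprob := hμ.prob
  have e23 : (6 : ℕ) = 2 * 3 := rfl
  have h1 : ∀ k : ℕ, 1 ≤ k → Nat.Coprime k 6 → ∀ n r : ℤ, n ≠ 0 → φ (u ^ n) ≠ 0 →
      Int.gcd r k = Int.gcd n k → {m : ℤ | m ≡ r [ZMOD k] ∧ φ (u ^ m) ≠ 0}.Infinite := by
    intro k hk hk6 n r hn0 hn hnr
    simp only [hval] at hn ⊢
    exact supp_inf (p := 2) (q := 3) (by norm_num) (by norm_num) hμ.inv_p hμ.inv_q hμ.ergodic hk hk6
      hn0 hn hnr
  have hexn : ∃ n : ℤ, n ≠ 0 ∧ φ (u ^ n) ≠ 0 := by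
    obtain ⟨n, hn0, hn⟩ := exists_supp hμ.ne
    refine ⟨n, hn0, ?_⟩
    rw [hval]
    exact hn
  obtain ⟨n₁, hn₁, hφn₁⟩ := hexn
  have hcop : ∀ l : ℕ, l.Prime → 5 ≤ l → ∀ j : ℕ, Nat.Coprime (l ^ j) 6 := by
    intro l hl h5 j
    apply Nat.Coprime.pow_left
    rw [Nat.Prime.coprime_iff_not_dvd hl]
    intro h6
    rw [e23, hl.dvd_mul] at h6
    rcases h6 with h6 | h6
    · have := Nat.le_of_dvd (by norm_num) h6; omega
    · have := Nat.le_of_dvd (by norm_num) h6; omega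
  have hgcd : ∀ l : ℕ, l.Prime → ∀ (j : ℕ) (r : ℤ), ¬ (l : ℤ) ∣ r →
      Int.gcd r ((l ^ j : ℕ) : ℤ) = 1 := by
    intro l hl j r hr
    show Nat.gcd r.natAbs ((l ^ j : ℕ) : ℤ).natAbs = 1
    rw [Int.natAbs_natCast]
    apply Nat.Coprime.pow_right
    rw [Nat.coprime_comm, Nat.Prime.coprime_iff_not_dvd hl]
    intro h
    exact hr (Int.natCast_dvd.2 h)
  refine ⟨h1, fun l hl h5 => ?_, ?_, ⟨n₁.natAbs, Int.natAbs_pos.2 hn₁, fun k hk hk6 r hr => ?_⟩,
    fun k hk hk6 => ?_⟩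
  · by_cases h : ∀ m : ℤ, ¬ (l : ℤ) ∣ m → φ (u ^ m) = 0
    · exact Or.inl h
    · right
      push Not at h
      obtain ⟨m, hm, hφm⟩ := h
      intro j r hr
      have hm0 : m ≠ 0 := by
        rintro rfl
        exact hm (dvd_zero _)
      refine h1 (l ^ j) (Nat.pos_of_ne_zero (pow_ne_zero _ hl.ne_zero)) (hcop l hl h5 j) m r hm0
        hφm ?_
      rw [hgcd l hl j r hr, hgcd l hl j m hm]
  · refine (Set.finite_Iic n₁.natAbs).subset ?_
    rintro l ⟨hl, h5, h⟩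
    rw [Set.mem_Iic]
    by_contra hcon
    apply hφn₁
    apply h
    intro hd
    exact hcon (Nat.le_of_dvd (Int.natAbs_pos.2 hn₁) (Int.natCast_dvd.1 hd))
  · have hk1 : Nat.Coprime k 6 := Nat.Coprime.coprime_mul_right_right hk6
    have hk2 : Nat.Coprime k n₁.natAbs := Nat.Coprime.coprime_mul_left_right hk6
    refine h1 k hk hk1 n₁ r hn₁ hφn₁ ?_
    rw [hr]
    show 1 = Nat.gcd n₁.natAbs (k : ℤ).natAbs
    rw [Int.natAbs_natCast, Nat.gcd_comm]
    exact Eq.symm hk2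
  · have hkp : Nat.Coprime k 2 := Nat.Coprime.coprime_mul_right_right (show Nat.Coprime k (2 * 3) from hk6)
    have hkq : Nat.Coprime k 3 := Nat.Coprime.coprime_mul_left_right (show Nat.Coprime k (2 * 3) from hk6)
    obtain ⟨n₀, -, h4⟩ := rational_translates le_rfl hk hkp hkq hμ.inv_p hμ.inv_q hμ.ergodic hμ.ne
    refine ⟨n₀, fun n hn j r => ?_⟩
    have hprob' : IsProbabilityMeasure (μ.map fun x : UnitAddCircle => (k ^ n) • x) :=
      Measure.isProbabilityMeasure_map (meas_nsmul _).aemeasurable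
    have h5 := all_classes_inf (by norm_num : 1 ≤ 2) (by norm_num : 1 ≤ 3) hk hkp hkq
      (mp_map' hμ.inv_p (k ^ n)) (mp_map' hμ.inv_q (k ^ n)) (erg_map hμ.ergodic (k ^ n)) (h4 n hn) j r
    simp only [fc_map] at h5
    simp only [hval]
    exact h5

end Pool.Agent.Results.MP_81910f_an.SupportSymmetry
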