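import Mathlib
import Pool.Agent.V11299.TR.Toep

/-!
# Traces of `C*(ℤ² ⋉ ℤ[1/6])` and their twists have small common minorants

Let `G` be the group generated by `x ↦ 2 x`, `x ↦ 3 x`, `x ↦ x + 1` on `ℚ`, a copy of
`ℤ² ⋉ ℤ[1/6]`, and `u` the translation by `1`. Let `a ≠ 0` be an integer and let `θ` be a point of
`ℝ/ℤ`. For tracial states `φ, φ'` of `C*(G)` consider the positive definite functions
`m ↦ φ (u ^ m)` and `m ↦ φ' (u ^ m)` on `ℤ`. A common minorant `ψ` (with parameters `a, θ`) is a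
positive definite function on `ℤ` such that `φ (u ^ m) - ψ(m)` and `φ' (u ^ m) - e(m θ) ψ(a m)` are
positive definite. For `a = 1` it is a common minorant of the restriction of `φ` and of a twist of
the restriction of `φ'`.

1. For all `K` and `ε > 0` there is `M` such that for all `θ` of infinite order, and for all `θ` of
   finite order for which the sets `{2 ^ m 3 ^ j θ : m ≥ 0}` have at least `M` elements, all tracial
   states `φ, φ'` and all common minorants `ψ`: the Toeplitz matrix `(φ (u ^ (j - k)))`, `j, k < K`,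
   is at least `(ψ(0) - ε)` times the unit matrix. So a common minorant forces `φ` to be close to a
   multiple of the regular trace plus a positive definite function.
2. Let `φ` be an extreme tracial state which is neither regular nor conditionally finite-dimensional.
   For every `c > 0` there is `M` such that for all such `θ` and all tracial states `φ'` all common
   minorants have `ψ(0) < c`. If `θ` has infinite order, then `ψ = 0` is the only common minorant.
-/

set_option autoImplicit false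

open MeasureTheory Filter Topology Finset
open scoped ComplexOrder ENNReal

namespace Pool.Agent.Results.MP_81910f_an.TwistedMinorants

open Pool.Agent.V1194.TR Pool.Agent.V11299.FG Pool.Agent.Y253.TR Pool.Agent.W763.Tr
open Pool.Agent.TH654.FC Pool.Agent.V11299.TR Pool.Agent.W764.FB

/-- the tracial states, as normalised positive definite class functions -/
def Traces (G : Subgroup (Equiv.Perm ℚ)) : Set (G → ℂ) :=
  {ψ : G → ℂ | ψ 1 = 1 ∧ (∀ g h : G, ψ (h * g * h⁻¹) = ψ g) ∧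
    ∀ (s : Finset G) (c : G → ℂ), 0 ≤ ∑ i ∈ s, ∑ j ∈ s, star (c j) * c i * ψ (j⁻¹ * i)}

/-- `c` is positive definite: all matrices `(c(j - k))`, `j, k < N`, are positive semidefinite -/
def PosDef (c : ℤ → ℂ) : Prop :=
  ∀ N : ℕ, ∀ a : ℕ → ℂ, 0 ≤ ∑ j ∈ range N, ∑ k ∈ range N, star (a k) * a j * c (j - k)

/-- `ψ` is a common minorant of `φ` and `φ'` with parameters `a, θ` -/
def Minorant {G : Subgroup (Equiv.Perm ℚ)} (u : G) (φ φ' : G → ℂ) (a : ℤ) (θ : UnitAddCircle)
    (ψ : ℤ → ℂ) : Prop :=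
  PosDef ψ ∧ PosDef (fun m => φ (u ^ m) - ψ m) ∧
    PosDef (fun m => φ' (u ^ m) - (fourier m θ : ℂ) * ψ (a * m))

/-- `θ` has infinite order, or all sets `{2 ^ m 3 ^ j θ : m ≥ 0}` have at least `M` elements -/
def Large (M : ℕ) (θ : UnitAddCircle) : Prop :=
  ¬ IsOfFinAddOrder θ ∨ ∀ j : ℕ, (M : ℕ∞) ≤ {y | ∃ m : ℕ, y = (2 ^ m * 3 ^ j) • θ}.encard

lemma fourier_affine (n a : ℤ) (x θ : UnitAddCircle) :
    (fourier n (a • x + θ) : ℂ) = fourier n θ * fourier (a * n) x := by
  simp only [fourier_apply, smul_add, smul_smul, AddCircle.toCircle_add, Circle.coe_mul]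
  rw [mul_comm n a, mul_comm]

section

variable {s2 s3 t : Equiv.Perm ℚ} {G : Subgroup (Equiv.Perm ℚ)} {u : G}

/-- the measure of a tracial state -/
lemma trace_measure (hs2 : ∀ x, s2 x = 2 * x) (hs3 : ∀ x, s3 x = 3 * x) (ht : ∀ x, t x = x + 1)
    (hG : G = Subgroup.closure {s2, s3, t}) (hu : ∀ x : ℚ, (u : Equiv.Perm ℚ) x = x + 1)
    {φ : G → ℂ} (hφ : φ ∈ Traces G) : ∃ μ : Measure UnitAddCircle, IsProbabilityMeasure μ ∧
      MeasurePreserving (fun x : UnitAddCircle => 2 • x) μ μ ∧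
      MeasurePreserving (fun x : UnitAddCircle => 3 • x) μ μ ∧
      ∀ n : ℤ, ∫ x, (fourier n x : ℂ) ∂μ = φ (u ^ n) := by
  obtain ⟨h1, hcl, hpd⟩ := hφ
  obtain ⟨τ, S6, μ, D⟩ := data_of hs2 hs3 ht hG h1 hcl hpd
  exact ⟨μ, D.prob, D.mp2, D.mp3, fun n => by rw [D.hμ, upow D.hτ hu]⟩

/-- the measures of a common minorant -/
lemma minorant_measure {φ φ' : G → ℂ} {a : ℤ} {θ : UnitAddCircle} {ψ : ℤ → ℂ}
    (hψ : Minorant u φ φ' a θ ψ) {μ ν : Measure UnitAddCircle} [IsProbabilityMeasure μ]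
    [IsProbabilityMeasure ν] (hμ : ∀ n : ℤ, ∫ x, (fourier n x : ℂ) ∂μ = φ (u ^ n))
    (hν : ∀ n : ℤ, ∫ x, (fourier n x : ℂ) ∂ν = φ' (u ^ n)) :
    ∃ σ : Measure UnitAddCircle, σ.real Set.univ = (ψ 0).re ∧ σ ≤ μ ∧
      σ.map (fun x => a • x + θ) ≤ ν := by
  obtain ⟨h1, h2, h3⟩ := hψ
  obtain ⟨σ, hσ, hval⟩ := herg h1
  have hcont : Continuous fun x : UnitAddCircle => a • x + θ :=
    (continuous_zsmul a).add continuous_const
  refine ⟨σ, ?_, ?_, ?_⟩
  · have h4 := hval 0
    simp only [fourier_zero, integral_const] at h4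
    rw [← h4]
    simp
  · refine le_of_posDef ?_
    have : (fun n => ∫ x, (fourier n x : ℂ) ∂μ - ∫ x, (fourier n x : ℂ) ∂σ) =
        fun m => φ (u ^ m) - ψ m := by
      funext n
      rw [hμ, hval]
    rw [this]
    exact h2
  · have hfin : IsFiniteMeasure (σ.map fun x : UnitAddCircle => a • x + θ) :=
      Measure.isFiniteMeasure_map σ _
    refine le_of_posDef ?_
    have : (fun n => ∫ x, (fourier n x : ℂ) ∂ν -
        ∫ x, (fourier n x : ℂ) ∂(σ.map fun x : UnitAddCircle => a • x + θ)) =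
        fun m => φ' (u ^ m) - (fourier m θ : ℂ) * ψ (a * m) := by
      funext n
      rw [hν, integral_map hcont.measurable.aemeasurable
        (fourier n).continuous.aestronglyMeasurable]
      congr 1
      simp only [fourier_affine]
      rw [integral_const_mul, hval]
    rw [this]
    exact h3

/-- **Theorem.** -/
theorem result (s2 s3 t : Equiv.Perm ℚ) (h2 : ∀ x : ℚ, s2 x = 2 * x) (h3 : ∀ x : ℚ, s3 x = 3 * x)
    (ht : ∀ x : ℚ, t x = x + 1) (G : Subgroup (Equiv.Perm ℚ))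
    (hG : G = Subgroup.closure {s2, s3, t}) (u : G) (hu : ∀ x : ℚ, (u : Equiv.Perm ℚ) x = x + 1)
    (a : ℤ) (ha : a ≠ 0) :
    -- 1. all traces
    (∀ (K : ℕ) (ε : ℝ), 0 < ε → ∃ M : ℕ, ∀ θ : UnitAddCircle, Large M θ →
      ∀ φ ∈ Traces G, ∀ φ' ∈ Traces G, ∀ ψ : ℤ → ℂ, Minorant u φ φ' a θ ψ → ∀ z : ℕ → ℂ,
        ((ψ 0).re - ε) * ∑ j ∈ range K, ‖z j‖ ^ 2 ≤
          (∑ j ∈ range K, ∑ k ∈ range K,
            star (z k) * z j * φ (u ^ ((j : ℤ) - (k : ℤ)))).re) ∧
    -- 2. counterexamples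
    (∀ φ ∈ Bad G,
      (∀ c : ℝ, 0 < c → ∃ M : ℕ, ∀ θ : UnitAddCircle, Large M θ →
        ∀ φ' ∈ Traces G, ∀ ψ : ℤ → ℂ, Minorant u φ φ' a θ ψ → (ψ 0).re < c) ∧
      (∀ θ : UnitAddCircle, ¬ IsOfFinAddOrder θ →
        ∀ φ' ∈ Traces G, ∀ ψ : ℤ → ℂ, Minorant u φ φ' a θ ψ → ψ = 0)) := by
  have hA : ∀ (K : ℕ) (ε : ℝ), 0 < ε → ∃ M : ℕ, ∀ θ : UnitAddCircle, Large M θ →
      ∀ φ ∈ Traces G, ∀ φ' ∈ Traces G, ∀ ψ : ℤ → ℂ, Minorant u φ φ' a θ ψ → ∀ z : ℕ → ℂ,
        ((ψ 0).re - ε) * ∑ j ∈ range K, ‖z j‖ ^ 2 ≤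
          (∑ j ∈ range K, ∑ k ∈ range K,
            star (z k) * z j * φ (u ^ ((j : ℤ) - (k : ℤ)))).re := by
    intro K ε hε
    obtain ⟨M, hM⟩ := toep ha K hε
    refine ⟨M, fun θ hθ φ hφ φ' hφ' ψ hψ z => ?_⟩
    obtain ⟨μ, hμ, hμ2, hμ3, hμv⟩ := trace_measure h2 h3 ht hG hu hφ
    obtain ⟨ν, hν, hν2, -, hνv⟩ := trace_measure h2 h3 ht hG hu hφ'
    obtain ⟨σ, hσ0, hσ1, hσ2⟩ := minorant_measure hψ hμv hνv
    have := hM θ hθ μ ν σ hμ hν hμ2 hμ3 hν2 hσ1 hσ2 z
    rw [hσ0] at this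
    simp only [hμv] at this
    exact this
  refine ⟨hA, fun φ hφ => ?_⟩
  have hφT : φ ∈ Traces G := hφ.1.1
  have hB : ∀ c : ℝ, 0 < c → ∃ M : ℕ, ∀ θ : UnitAddCircle, Large M θ →
        ∀ φ' ∈ Traces G, ∀ ψ : ℤ → ℂ, Minorant u φ φ' a θ ψ → (ψ 0).re < c := by
    intro c hc
    by_contra hcon
    push Not at hcon
    obtain ⟨μ, hμ, -, hval⟩ := bad_measure h2 h3 ht hG hu hφ
    have hprob := hμ.prob
    have hpos : V11299.TR.PosDef fun n => φ (u ^ n) - if n = 0 then (c : ℂ) else 0 := by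
      intro N z
      -- the quadratic form is real
      have hQ : (∑ j ∈ range N, ∑ k ∈ range N,
          star (z k) * z j * φ (u ^ ((j : ℤ) - (k : ℤ)))) =
          ((∫ x, sq (fun j : Fin N => z j) x ∂μ : ℝ) : ℂ) := by
        rw [int_sq, Finset.sum_range]
        refine Finset.sum_congr rfl fun j _ => ?_
        rw [Finset.sum_range]
        refine Finset.sum_congr rfl fun k _ => ?_
        rw [hval]
      have hS : (∑ j ∈ range N, ∑ k ∈ range N,
          star (z k) * z j * (if (j : ℤ) - (k : ℤ) = 0 then (c : ℂ) else 0)) =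
          ((c * ∑ j ∈ range N, ‖z j‖ ^ 2 : ℝ) : ℂ) := by
        push_cast
        rw [Finset.mul_sum]
        refine Finset.sum_congr rfl fun j hj => ?_
        rw [Finset.sum_eq_single j]
        · simp only [sub_self, if_true]
          have := Complex.conj_mul' (z j)
          have h5 : star (z j) * z j = (‖z j‖ : ℂ) ^ 2 := this
          rw [h5]
          ring
        · intro k _ hk
          have : ((j : ℤ) - (k : ℤ)) ≠ 0 := fun h0 => hk (by omega)
          rw [if_neg this, mul_zero]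
        · intro h; exact absurd hj h
      have hsplit : (∑ j ∈ range N, ∑ k ∈ range N, star (z k) * z j *
          (φ (u ^ ((j : ℤ) - (k : ℤ))) - if (j : ℤ) - (k : ℤ) = 0 then (c : ℂ) else 0)) =
          (((∫ x, sq (fun j : Fin N => z j) x ∂μ) - c * ∑ j ∈ range N, ‖z j‖ ^ 2 : ℝ) : ℂ) := by
        rw [Complex.ofReal_sub, ← hQ, ← hS, ← Finset.sum_sub_distrib]
        refine Finset.sum_congr rfl fun j _ => ?_
        rw [← Finset.sum_sub_distrib]
        refine Finset.sum_congr rfl fun k _ => ?_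
        ring
      rw [hsplit]
      have hle : c * ∑ j ∈ range N, ‖z j‖ ^ 2 ≤ ∫ x, sq (fun j : Fin N => z j) x ∂μ := by
        have hSn : 0 ≤ ∑ j ∈ range N, ‖z j‖ ^ 2 := Finset.sum_nonneg fun _ _ => by positivity
        refine le_of_forall_pos_le_add fun δ hδ => ?_
        obtain ⟨M, hM⟩ := hA N (δ / (∑ j ∈ range N, ‖z j‖ ^ 2 + 1)) (by positivity)
        obtain ⟨θ, hθ, φ', hφ', ψ, hψ, hc'⟩ := hcon M
        have h5 := hM θ hθ φ hφT φ' hφ' ψ hψ z
        rw [hQ, Complex.ofReal_re] at h5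
        have h6 : δ / (∑ j ∈ range N, ‖z j‖ ^ 2 + 1) * ∑ j ∈ range N, ‖z j‖ ^ 2 ≤ δ := by
          rw [div_mul_eq_mul_div, div_le_iff₀ (by positivity)]
          nlinarith
        nlinarith
      exact_mod_cast sub_nonneg.2 hle
    obtain ⟨κ, hκ, hκv⟩ := herg hpos
    have hμeq : μ = ENNReal.ofReal c • (volume : Measure UnitAddCircle) + κ := by
      have hfin : IsFiniteMeasure (ENNReal.ofReal c • (volume : Measure UnitAddCircle)) :=
        Measure.smul_finite _ ENNReal.ofReal_ne_top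
      refine ext_fourier fun n => ?_
      rw [integral_add_measure (integrable_cont _ (fourier n)) (integrable_cont κ (fourier n)),
        hκv, integral_smul_measure, ENNReal.toReal_ofReal hc.le, hval]
      by_cases hn : n = 0
      · subst hn
        simp
      · rw [Pool.Agent.H769R3.integral_fourier_volume hn, if_neg hn]
        simp
    have hac : (volume : Measure UnitAddCircle) ≪ μ := by
      have h5 : (volume : Measure UnitAddCircle) ≪
          ENNReal.ofReal c • (volume : Measure UnitAddCircle) :=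
        Measure.absolutelyContinuous_smul (by simpa using hc)
      refine h5.trans (Measure.absolutelyContinuous_of_le ?_)
      rw [hμeq]
      exact Measure.le_add_right le_rfl
    have := eq_of_ac hμ.inv_p hμ.inv_q hμ.ergodic (mp_vol' (by norm_num : 1 ≤ 2))
      (mp_vol' (by norm_num : 1 ≤ 3)) hac
    exact hμ.ne this.symm
  refine ⟨hB, fun θ hθ φ' hφ' ψ hψ => ?_⟩
  have h0 := V11299.TR.PosDef.zero_nonneg hψ.1
  obtain ⟨hre, him⟩ := Complex.nonneg_iff.1 h0
  have h1 : (ψ 0).re ≤ 0 := by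
    refine le_of_forall_pos_le_add fun c hc => ?_
    obtain ⟨M, hM⟩ := hB c hc
    rw [zero_add]
    exact (hM θ (Or.inl hθ) φ' hφ' ψ hψ).le
  have h2 : ψ 0 = 0 := Complex.ext (le_antisymm h1 hre) him.symm
  funext n
  exact V11299.TR.PosDef.eq_zero hψ.1 h2 n

end

end Pool.Agent.Results.MP_81910f_an.TwistedMinorants
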